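import Pool.Agent.KS6_18.Stab.Space

set_option autoImplicit false
open Set Filter Topology
open Pool.Agent.KS6_18.Stab

namespace Pool.Agent.Results.MP_6b330e_an.EveryReflexiveSpace

/-- `X` is reflexive: the canonical map to the bidual is onto. -/
def Reflexive (X : Type) [NormedAddCommGroup X] [NormedSpace ℂ X] : Prop :=
  Function.Surjective (NormedSpace.inclusionInDoubleDual ℂ X)

/-- `T` is weakly stable: `f (T ^ n x) → 0` for all `x ∈ X`, `f ∈ X*`. -/
def WeaklyStable {X : Type} [NormedAddCommGroup X] [NormedSpace ℂ X] (T : X →L[ℂ] X) : Prop :=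
  ∀ (x : X) (f : X →L[ℂ] ℂ), Tendsto (fun n : ℕ => f ((T ^ n) x)) atTop (𝓝 0)

/-- Every separable infinite-dimensional reflexive complex Banach space `E` is linearly
homeomorphic to a (separable, infinite-dimensional, reflexive) Banach space `X` for which the first
half of the question fails: the set of weakly stable contractions of `X` is not of first category
for the weak operator topology `wot X` of the set `Contr X` of contractions. Moreover, for every
`ε > 0` the contractions of `X` contain a nonempty open set all of whose members satisfy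
`‖T ^ 3‖ ≤ ε`, and the contractions with `‖T ^ n‖ → 0` are not of first category. -/
theorem result (E : Type) [NormedAddCommGroup E] [NormedSpace ℂ E] [CompleteSpace E]
    [TopologicalSpace.SeparableSpace E] (hinf : ¬ FiniteDimensional ℂ E) (hrefl : Reflexive E) :
    ∃ (X : Type) (_ : NormedAddCommGroup X) (_ : NormedSpace ℂ X) (_ : E ≃L[ℂ] X),
      CompleteSpace X ∧ TopologicalSpace.SeparableSpace X ∧ ¬ FiniteDimensional ℂ X ∧
      Reflexive X ∧
      (∀ ε : ℝ, 0 < ε → ∃ W : Set (Contr X), @IsOpen (Contr X) (wot X) W ∧ W.Nonempty ∧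
        ∀ T ∈ W, ‖T.1 ^ 3‖ ≤ ε) ∧
      ¬ (@IsMeagre (Contr X) (wot X) {T | WeaklyStable T.1}) ∧
      ¬ (@IsMeagre (Contr X) (wot X) {T | Tendsto (fun n : ℕ => ‖T.1 ^ n‖) atTop (𝓝 0)}) := by
  obtain ⟨Y, _, _, _, ⟨e⟩⟩ := exists_equiv E hinf
  have hr : Function.Surjective (NormedSpace.inclusionInDoubleDual ℂ (Sp Y)) := refl_equiv e hrefl
  have hB : @BaireSpace (Contr (Sp Y)) (wot (Sp Y)) := baire hr
  obtain ⟨W, hW, hWne, hW3⟩ := open_set Y (ε := 1 / 2) (by norm_num)
  have hnm : ¬ @IsMeagre _ (wot (Sp Y)) W := by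
    letI := wot (Sp Y)
    exact not_isMeagre_of_isOpen hW hWne
  refine ⟨Sp Y, inferInstance, inferInstance, e, inferInstance, ?_, ?_, hr,
    fun ε hε => open_set Y hε, ?_, ?_⟩
  · exact e.surjective.denseRange.separableSpace e.continuous
  · intro h
    exact hinf (Module.Finite.equiv e.symm.toLinearEquiv)
  · intro h
    have hsub : W ⊆ {T : Contr (Sp Y) | WeaklyStable T.1} := by
      intro T hT x f
      have h1 : Tendsto (fun n : ℕ => ‖T.1 ^ n‖) atTop (𝓝 0) := tends T.1 T.2 (hW3 T hT)
      have h2 : Tendsto (fun n : ℕ => ‖f‖ * (‖T.1 ^ n‖ * ‖x‖)) atTop (𝓝 0) := by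
        have := (h1.mul_const ‖x‖).const_mul ‖f‖
        simpa using this
      refine squeeze_zero_norm (fun n => ?_) h2
      exact (f.le_opNorm _).trans (by gcongr; exact (T.1 ^ n).le_opNorm x)
    exact hnm (@IsMeagre.mono _ (wot (Sp Y)) _ _ hsub h)
  · intro h
    have hsub : W ⊆ {T : Contr (Sp Y) | Tendsto (fun n : ℕ => ‖T.1 ^ n‖) atTop (𝓝 0)} := by
      intro T hT
      have h1 : Tendsto (fun n : ℕ => ‖T.1 ^ n‖) atTop (𝓝 0) := tends T.1 T.2 (hW3 T hT)
      exact h1
    exact hnm (@IsMeagre.mono _ (wot (Sp Y)) _ _ hsub h)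

end Pool.Agent.Results.MP_6b330e_an.EveryReflexiveSpace
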